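import Pool.Agent.H70.GH.U1

/-!
# Theorem (H), MP_c59857_nt: a window and its pieces, without losses in the threshold
-/

set_option autoImplicit false

open Finset Pool.Agent.H6.N4D Pool.Agent.H93 Pool.Agent.H93.GS Pool.Agent.H6.GS2

namespace Pool.Agent.H70.GH

/-- the normalised test of the prime `q` with `F`; functions of mean square less than `τ ^ 2` are
only divided by `τ` -/
noncomputable def nt (lam : ℕ → ℝ) (q N n : ℕ) (τ : ℝ) (F : ℕ → ℂ) : ℝ :=
  ‖txf lam q N n F‖ ^ 2 / max (ar 1 N n (fun m => ‖F m‖ ^ 2)) (τ ^ 2)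

lemma nt_nonneg (lam : ℕ → ℝ) (q N n : ℕ) (τ : ℝ) (F : ℕ → ℂ) : 0 ≤ nt lam q N n τ F := by
  unfold nt
  apply div_nonneg (by positivity)
  exact le_max_of_le_right (sq_nonneg τ)

lemma nt_amgm (lam : ℕ → ℝ) (q N n : ℕ) {τ η : ℝ} (F : ℕ → ℂ) (hτ : 0 < τ) (hη : 0 < η) :
    2 * ‖txf lam q N n F‖ ≤ η * ar 1 N n (fun m => ‖F m‖ ^ 2) + η * τ ^ 2 +
      1 / η * nt lam q N n τ F := by
  unfold nt
  obtain ⟨x, hx⟩ : ∃ x, x = ‖txf lam q N n F‖ := ⟨_, rfl⟩
  obtain ⟨y, hy⟩ : ∃ y, y = ar 1 N n (fun m => ‖F m‖ ^ 2) := ⟨_, rfl⟩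
  obtain ⟨z, hz⟩ : ∃ z, z = max y (τ ^ 2) := ⟨_, rfl⟩
  have hy0 : 0 ≤ y := by rw [hy]; exact ar_nonneg _ _ _ fun m => by positivity
  have hτ2 : 0 < τ ^ 2 := by positivity
  have hz0 : 0 < z := by rw [hz]; exact lt_max_of_lt_right hτ2
  have hz1 : z ≤ y + τ ^ 2 := by rw [hz]; exact max_le (by linarith) (by linarith)
  rw [← hx, ← hy, ← hz]
  have h1 : 2 * x ≤ η * z + 1 / η * (x ^ 2 / z) := by
    have e1 : η * z + 1 / η * (x ^ 2 / z) - 2 * x = (η * z - x) ^ 2 / (η * z) := by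
      field_simp
      ring
    have e2 : 0 ≤ (η * z - x) ^ 2 / (η * z) := by positivity
    linarith
  have h2 : η * z ≤ η * (y + τ ^ 2) := by gcongr
  linarith

/-- U1, with the normalised test. -/
theorem u1n (hK : T_KER) {th : ℝ} {lam : ℕ → ℝ} {q N n : ℕ} {g h : Ex} {b : ℕ → ℤ} {M τ : ℝ}
    (hq : 1 ≤ q) (hqN : q ≤ N) (hM : 0 < M) (hτ : 0 < τ) (hg : Opt th lam 1 N n g)
    (hh : Opt th lam q N n h) (hc : Cons q N M h b) :
    En th lam q N n ≤ En th lam 1 N n + lin lam q N n g +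
      nt lam q N n τ (fun m => (mv q h b).f m - g.f m) + τ ^ 2 +
      (1 / M + (q : ℝ) ^ 2 / N) * h.nm ^ 2 := by
  have h1 := u1 hK hq hqN hM hg hh hc (n := n)
  have h2 := nt_amgm lam q N n (fun m => (mv q h b).f m - g.f m) hτ one_pos
  linarith

/-- U2. A window and its pieces. -/
theorem u2 (hP : T_PCA) (hS : T_PCS) {th : ℝ} {lam : ℕ → ℝ} {q P L n : ℕ} {g : Ex}
    {gj : ℕ → Ex} {E : ℕ → ℝ} {τ η : ℝ} (hth : 0 < th) (hl : ∀ m, |lam m| ≤ 1) (hq : 1 ≤ q)
    (hqL : q ≤ L) (hP1 : 1 ≤ P) (hτ : 0 < τ) (hη : 0 < η) (hg : Opt th lam 1 (P * L) n g)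
    (hgj : ∀ j < P, Opt th lam 1 L (n + j * L) (gj j))
    (hE : ∀ j < P, En th lam q L (n + j * L) ≤ En th lam 1 L (n + j * L) +
      lin lam q L (n + j * L) (gj j) + E j) :
    gapq th lam q P L n ≤ (1 + η) * gap th lam P L n + η * τ ^ 2 +
      (∑ j ∈ range P, (1 / η * nt lam q L (n + j * L) τ (fun m => (gj j).f m - g.f m) + E j)) / P +
      |nrm q (P * L) n g| := by
  have hL : 1 ≤ L := hq.trans hqL
  have hP0 : (0 : ℝ) < P := by exact_mod_cast hP1
  obtain ⟨p1, -, -⟩ := hP q P L n hP1 hL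
  obtain ⟨p2, -, -⟩ := hP 1 P L n hP1 hL
  -- the lower bound for the window
  have h1 : En th lam 1 (P * L) n + lin lam q (P * L) n g - nrm q (P * L) n g ≤
      En th lam q (P * L) n := by
    have e1 := J_le_En th lam q (P * L) n hth.le hl hq (Nat.mul_pos hP1 hL) g
    have e2 : J th lam q (P * L) n g = J th lam 1 (P * L) n g + lin lam q (P * L) n g -
        nrm q (P * L) n g := by
      unfold J lin nrm
      have e3 : ∀ q', ar q' (P * L) n (fun m => 2 * lam m * (g.f m).re - ‖g.f m‖ ^ 2) =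
          2 * ar q' (P * L) n (fun m => lam m * (g.f m).re) -
            ar q' (P * L) n (fun m => ‖g.f m‖ ^ 2) := by
        intro q'
        rw [← ar_mul, ← ar_sub]
        apply ar_congr
        intro m _ _
        ring
      rw [e3, e3]
      ring
    rw [hg.mx] at e2
    linarith
  -- the linear term of the window
  have h2 : lin lam q (P * L) n g = (∑ j ∈ range P, lin lam q L (n + j * L) g) / P := by
    unfold lin
    rw [p1, p2, ← sub_div, ← sum_sub_distrib, ← mul_sum, mul_div_assoc]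
  -- the pieces
  have h3 : ∀ j ∈ range P, En th lam q L (n + j * L) - En th lam 1 L (n + j * L) -
      lin lam q L (n + j * L) g ≤ η * d2 1 L (n + j * L) g (gj j) + η * τ ^ 2 +
        (1 / η * nt lam q L (n + j * L) τ (fun m => (gj j).f m - g.f m) + E j) := by
    intro j hj
    have e1 := hE j (mem_range.1 hj)
    have e2 : lin lam q L (n + j * L) (gj j) - lin lam q L (n + j * L) g ≤
        2 * ‖txf lam q L (n + j * L) (fun m => (gj j).f m - g.f m)‖ := by
      rw [Pool.Agent.H67.GSC.ldg_lin]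
      have := Complex.re_le_norm (ac 1 L (n + j * L) (fun m => (EB.D q m : ℂ) * lam m *
        (starRingEnd ℂ) ((gj j).f m - g.f m)))
      unfold txf
      linarith
    have e3 := nt_amgm lam q L (n + j * L) (fun m => (gj j).f m - g.f m) hτ hη
    have e4 : ar 1 L (n + j * L) (fun m => ‖(gj j).f m - g.f m‖ ^ 2) =
        d2 1 L (n + j * L) g (gj j) := by
      unfold d2
      apply ar_congr
      intro m _ _
      rw [norm_sub_rev]
    rw [e4] at e3
    linarith
  have h4 := sum_le_sum h3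
  rw [sum_add_distrib, sum_add_distrib, sum_sub_distrib, sum_sub_distrib, sum_const, card_range,
    nsmul_eq_mul, ← mul_sum] at h4
  -- the defect
  have h5 : (∑ j ∈ range P, d2 1 L (n + j * L) g (gj j)) / P ≤ gap th lam P L n := by
    have e1 := hS th lam 1 P L n g gj hth hl le_rfl hP1 hL hg hgj
    have e2 : gap th lam P L n = gapq th lam 1 P L n := rfl
    rw [e2, e1]
    gcongr with j hj
    have := slk_nonneg (hgj j (mem_range.1 hj)) g
    linarith
  unfold gapq gap at *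
  have h6 := le_abs_self (nrm q (P * L) n g)
  have h7 : (∑ j ∈ range P, En th lam q L (n + j * L)) / P -
      (∑ j ∈ range P, En th lam 1 L (n + j * L)) / P - lin lam q (P * L) n g ≤
      η * ((∑ j ∈ range P, d2 1 L (n + j * L) g (gj j)) / P) + η * τ ^ 2 +
      (∑ j ∈ range P, (1 / η * nt lam q L (n + j * L) τ (fun m => (gj j).f m - g.f m) +
        E j)) / P := by
    rw [h2, ← sub_div, ← sub_div]
    have e1 := div_le_div_of_nonneg_right h4 hP0.le
    refine e1.trans (le_of_eq ?_)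
    field_simp
  have h8 : η * ((∑ j ∈ range P, d2 1 L (n + j * L) g (gj j)) / P) ≤
      η * ((∑ j ∈ range P, En th lam 1 L (n + j * L)) / P - En th lam 1 (P * L) n) := by
    gcongr
  linarith

end Pool.Agent.H70.GH
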