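import Pool.Agent.H6.GS2.Bas
import Pool.Agent.H95.GSC.LFT
import Pool.Agent.H67.GSC.LDG

/-!
# Theorem (H), MP_c59857_nt: one window and one prime, without losses in the threshold

The energy on the multiples of `q` is compared with the energy of the window: the difference is
controlled by the test of the difference `F` of the two optimal sums, minus the mean square of `F`.
-/

set_option autoImplicit false

open Finset Pool.Agent.H6.N4D Pool.Agent.H93 Pool.Agent.H93.GS Pool.Agent.H6.GS2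

namespace Pool.Agent.H70.GH

/-- the sum with the frequencies moved by multiples of `1 / q` -/
noncomputable def mv (q : ℕ) (h : Ex) (b : ℕ → ℤ) : Ex := ⟨h.k, h.c, fun j => h.a j + b j / q⟩

/-- the frequencies are moved consistently: two of them are far from each other modulo `1 / q`,
or near to each other modulo `1` after the move -/
def Cons (q N : ℕ) (M : ℝ) (h : Ex) (b : ℕ → ℤ) : Prop := ∀ i < h.k, ∀ l < h.k,
  M * q / N ≤ nd (q * (h.a i - h.a l)) ∨
    nd ((h.a i + b i / q) - (h.a l + b l / q)) ≤ 1 / (2 * q)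

/-- the test of the prime `q` with the function `F` -/
noncomputable def txf (lam : ℕ → ℝ) (q N n : ℕ) (F : ℕ → ℂ) : ℂ :=
  ac 1 N n (fun m => (EB.D q m : ℂ) * lam m * (starRingEnd ℂ) (F m))

lemma nd_far {q : ℕ} (hq : 1 ≤ q) {y : ℝ} (hy : nd y ≤ 1 / (2 * q)) (b : ℤ)
    (hb : ¬ ((q : ℤ) ∣ b)) : 1 / (2 * (q : ℝ)) ≤ nd (y - (b : ℝ) / q) := by
  have hq0 : (0 : ℝ) < q := by exact_mod_cast hq
  have h1 : 1 / (q : ℝ) ≤ nd ((b : ℝ) / q) := by
    obtain ⟨k, hk⟩ := exists_int ((b : ℝ) / q)
    rw [← hk]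
    have h2 : (b : ℝ) / q - k = ((b - k * q : ℤ) : ℝ) / q := by
      push_cast
      field_simp
    rw [h2, abs_div, abs_of_pos hq0]
    have h3 : (b - k * q : ℤ) ≠ 0 := by
      intro h
      apply hb
      exact ⟨k, by linarith⟩
    have h4 : (1 : ℝ) ≤ |((b - k * q : ℤ) : ℝ)| := by
      have := Int.one_le_abs h3
      exact_mod_cast this
    gcongr
  have h2 : nd ((b : ℝ) / q) ≤ nd y + nd (y - (b : ℝ) / q) := by
    have := nd_sub_le y (y - (b : ℝ) / q)
    rwa [show y - (y - (b : ℝ) / q) = (b : ℝ) / q by ring] at this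
  have h3 : 1 / (q : ℝ) = 1 / (2 * q) + 1 / (2 * q) := by field_simp; norm_num
  linarith

/-- the mean squares on the multiples of `q` and on the window -/
lemma nrm_le (hK : T_KER) {q N n : ℕ} {M : ℝ} {h : Ex} {b : ℕ → ℤ} (hq : 1 ≤ q) (hqN : q ≤ N)
    (hM : 0 < M) (hc : Cons q N M h b) :
    |nrm q N n (mv q h b)| ≤ (1 / M + (q : ℝ) ^ 2 / N) * h.nm ^ 2 := by
  have hN : 1 ≤ N := hq.trans hqN
  have hN0 : (0 : ℝ) < N := by exact_mod_cast hN
  have hq0 : (0 : ℝ) < q := by exact_mod_cast hq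
  have e1 : nrm q N n (mv q h b) =
      (ac 1 N n (fun m => (EB.D q m : ℂ) * ((mv q h b).f m *
        (starRingEnd ℂ) ((mv q h b).f m)))).re := by
    unfold nrm
    rw [Pool.Agent.H67.GSC.ldg_ar, ac_re]
    apply ar_congr
    intro m _ _
    rw [Complex.mul_conj, Complex.normSq_eq_norm_sq, ← Complex.ofReal_mul, Complex.ofReal_re]
  have e2 : ac 1 N n (fun m => (EB.D q m : ℂ) * ((mv q h b).f m *
      (starRingEnd ℂ) ((mv q h b).f m))) =
      ∑ i ∈ range h.k, ∑ l ∈ range h.k, h.c i * (starRingEnd ℂ) (h.c l) *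
        ac 1 N n (fun m => (EB.D q m : ℂ) *
          ee (((h.a i + b i / q) - (h.a l + b l / q)) * m)) := by
    have e3 : (fun m : ℕ => (EB.D q m : ℂ) * ((mv q h b).f m *
        (starRingEnd ℂ) ((mv q h b).f m))) = fun m : ℕ =>
        ∑ i ∈ range h.k, ∑ l ∈ range h.k, (h.c i * (starRingEnd ℂ) (h.c l)) *
          ((EB.D q m : ℂ) * ee (((h.a i + b i / q) - (h.a l + b l / q)) * m)) := by
      funext m
      unfold Ex.f mv
      rw [map_sum, sum_mul_sum, mul_sum]
      apply sum_congr rfl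
      intro i _
      rw [mul_sum]
      apply sum_congr rfl
      intro l _
      rw [map_mul, conj_ee, show ((h.a i + b i / q) - (h.a l + b l / q)) * (m : ℝ) =
        (h.a i + b i / q) * m + -((h.a l + b l / q) * m) by ring, ee_add]
      ring
    rw [e3, ac_sum]
    apply sum_congr rfl
    intro i _
    rw [ac_sum]
    apply sum_congr rfl
    intro l _
    rw [ac_mul]
  have e4 : ∀ i ∈ range h.k, ∀ l ∈ range h.k,
      ‖ac 1 N n (fun m => (EB.D q m : ℂ) *
        ee (((h.a i + b i / q) - (h.a l + b l / q)) * m))‖ ≤ 1 / M + (q : ℝ) ^ 2 / N := by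
    intro i hi l hl
    have hk := hK q N n ((h.a i + b i / q) - (h.a l + b l / q)) hq hqN
    rcases hc i (mem_range.1 hi) l (mem_range.1 hl) with h1 | h1
    · have e5 : nd (q * ((h.a i + b i / q) - (h.a l + b l / q))) = nd (q * (h.a i - h.a l)) := by
        rw [show (q : ℝ) * ((h.a i + b i / q) - (h.a l + b l / q)) =
          q * (h.a i - h.a l) + ((b i - b l : ℤ) : ℝ) by push_cast; field_simp; ring, nd_add_int]
      have e6 : 0 < nd (q * (h.a i - h.a l)) := lt_of_lt_of_le (by positivity) h1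
      have e7 := hk.2.1 (by rw [e5]; exact e6)
      rw [e5] at e7
      refine e7.trans ?_
      have e8 : (q : ℝ) / (N * nd (q * (h.a i - h.a l))) ≤ 1 / M := by
        rw [div_le_div_iff₀ (by positivity) hM]
        rw [div_le_iff₀ hN0] at h1
        linarith
      have : 0 ≤ (q : ℝ) ^ 2 / N := by positivity
      linarith
    · have e7 := hk.2.2 (N / (2 * q)) (by positivity) (by
        intro e he
        have := nd_far hq h1 e he
        refine le_trans (le_of_eq ?_) this
        field_simp)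
      refine e7.trans ?_
      have e8 : (q : ℝ) / (2 * (N / (2 * q))) = (q : ℝ) ^ 2 / N := by field_simp
      rw [e8]
      have : 0 ≤ 1 / M := by positivity
      linarith
  rw [e1]
  refine (Complex.abs_re_le_norm _).trans ?_
  rw [e2]
  refine (norm_sum_le _ _).trans ?_
  calc ∑ i ∈ range h.k, ‖∑ l ∈ range h.k, h.c i * (starRingEnd ℂ) (h.c l) *
        ac 1 N n (fun m => (EB.D q m : ℂ) *
          ee (((h.a i + b i / q) - (h.a l + b l / q)) * m))‖
      ≤ ∑ i ∈ range h.k, ∑ l ∈ range h.k, ‖h.c i‖ * ‖h.c l‖ * (1 / M + (q : ℝ) ^ 2 / N) := by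
        apply sum_le_sum
        intro i hi
        refine (norm_sum_le _ _).trans (sum_le_sum fun l hl => ?_)
        rw [norm_mul, norm_mul, Complex.norm_conj]
        have := e4 i hi l hl
        gcongr
    _ = (1 / M + (q : ℝ) ^ 2 / N) * h.nm ^ 2 := by
        unfold Ex.nm
        rw [sq (∑ i ∈ range h.k, ‖h.c i‖), sum_mul_sum, mul_sum]
        apply sum_congr rfl
        intro i _
        rw [mul_sum]
        apply sum_congr rfl
        intro l _
        ring

/-- U1. -/
theorem u1 (hK : T_KER) {th : ℝ} {lam : ℕ → ℝ} {q N n : ℕ} {g h : Ex} {b : ℕ → ℤ} {M : ℝ}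
    (hq : 1 ≤ q) (hqN : q ≤ N) (hM : 0 < M) (hg : Opt th lam 1 N n g)
    (hh : Opt th lam q N n h) (hc : Cons q N M h b) :
    En th lam q N n ≤ En th lam 1 N n + lin lam q N n g +
      2 * ‖txf lam q N n (fun m => (mv q h b).f m - g.f m)‖ -
      ar 1 N n (fun m => ‖(mv q h b).f m - g.f m‖ ^ 2) +
      (1 / M + (q : ℝ) ^ 2 / N) * h.nm ^ 2 := by
  have h1 := Pool.Agent.H95.GSC.pf_LFT th lam q N n g h b hq hg hh
  have h2 : lin lam q N n (mv q h b) - lin lam q N n g ≤
      2 * ‖txf lam q N n (fun m => (mv q h b).f m - g.f m)‖ := by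
    rw [Pool.Agent.H67.GSC.ldg_lin]
    have := Complex.re_le_norm (ac 1 N n (fun m => (EB.D q m : ℂ) * lam m *
      (starRingEnd ℂ) ((mv q h b).f m - g.f m)))
    unfold txf
    linarith
  have h3 := (abs_le.1 (nrm_le (n := n) hK hq hqN hM hc)).1
  have h4 := slk_nonneg hg (mv q h b)
  have h5 : d2 1 N n (mv q h b) g = ar 1 N n (fun m => ‖(mv q h b).f m - g.f m‖ ^ 2) := rfl
  have h6 : (⟨h.k, h.c, fun j => h.a j + b j / q⟩ : Ex) = mv q h b := rfl
  rw [h6] at h1
  rw [h5] at h1
  linarith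

end Pool.Agent.H70.GH
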